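import Pool.Agent.Q299.Dep.Defs

/-!
# Threshold pairs of monotone properties of locally dependent random graphs: definitions
-/

namespace Q299.Thr

open MeasureTheory ProbabilityTheory Filter Topology Asymptotics Q299.Dep

/-- A monotone (increasing) graph property: for every `n` a set of graphs on `[n]`, invariant under
isomorphism and closed under adding edges. -/
structure IsMonotoneProperty (P : ∀ n : ℕ, SimpleGraph (Fin n) → Prop) : Prop where
  iso : ∀ (n : ℕ) (G H : SimpleGraph (Fin n)), Nonempty (G ≃g H) → P n G → P n H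
  mono : ∀ (n : ℕ) (G H : SimpleGraph (Fin n)), G ≤ H → P n G → P n H

/-- `(L, U)` is a threshold pair for `P`: the sequences `d(n) = O(n / ln n)` and `p(n) ∈ [0, 1]` are
arbitrary in the three clauses. -/
structure IsThresholdPair (P : ∀ n : ℕ, SimpleGraph (Fin n) → Prop) (L U : ℕ → ℕ → ℝ) : Prop where
  pos : ∀ n d : ℕ, 1 ≤ n → 0 < L n d
  le : ∀ n d : ℕ, L n d ≤ U n d
  /-- below `L` every `d`-dependent random graph almost surely lacks `P` -/
  below : ∀ (d : ℕ → ℕ) (p : ℕ → ℝ),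
    (fun n => (d n : ℝ)) =O[atTop] (fun n : ℕ => (n : ℝ) / Real.log n) →
    (∀ n, 0 ≤ p n ∧ p n ≤ 1) → p =o[atTop] (fun n => L n (d n)) →
    ∀ μ : ∀ n : ℕ, Measure (SimpleGraph (Fin n)), (∀ n, IsDDependent n (d n) (p n) (μ n)) →
      Tendsto (fun n => μ n {G | P n G}) atTop (𝓝 0)
  /-- above `U` every `d`-dependent random graph almost surely has `P` -/
  above : ∀ (d : ℕ → ℕ) (p : ℕ → ℝ),
    (fun n => (d n : ℝ)) =O[atTop] (fun n : ℕ => (n : ℝ) / Real.log n) →
    (∀ n, 0 ≤ p n ∧ p n ≤ 1) → (fun n => U n (d n)) =o[atTop] p →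
    ∀ μ : ∀ n : ℕ, Measure (SimpleGraph (Fin n)), (∀ n, IsDDependent n (d n) (p n) (μ n)) →
      Tendsto (fun n => μ n {G | P n G}) atTop (𝓝 1)
  /-- between `L` and `U` some `d`-dependent random graph almost surely has `P` and some other
  almost surely lacks it -/
  between : ∀ (d : ℕ → ℕ) (p : ℕ → ℝ),
    (fun n => (d n : ℝ)) =O[atTop] (fun n : ℕ => (n : ℝ) / Real.log n) →
    (∀ n, 0 ≤ p n ∧ p n ≤ 1) → (fun n => L n (d n)) =o[atTop] p →
    p =o[atTop] (fun n => U n (d n)) →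
    (∃ μ : ∀ n : ℕ, Measure (SimpleGraph (Fin n)), (∀ n, IsDDependent n (d n) (p n) (μ n)) ∧
      Tendsto (fun n => μ n {G | P n G}) atTop (𝓝 1)) ∧
    (∃ μ : ∀ n : ℕ, Measure (SimpleGraph (Fin n)), (∀ n, IsDDependent n (d n) (p n) (μ n)) ∧
      Tendsto (fun n => μ n {G | P n G}) atTop (𝓝 0))

/-- The property of the counterexample: two different edges share a vertex, or there are at least
`n ^ (1 / 4)` edges. -/
def CherryOrMany (n : ℕ) (G : SimpleGraph (Fin n)) : Prop :=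
  (∃ a b c : Fin n, b ≠ c ∧ G.Adj a b ∧ G.Adj a c) ∨ (n : ℝ) ^ (1 / 4 : ℝ) ≤ (G.edgeSet.ncard : ℝ)

end Q299.Thr
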