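import Pool.Agent.Q299.Dep.Count
import Pool.Agent.Q299.Dep.Hit
import Pool.Agent.Q299.Thr.Defs

/-!
# Threshold pair of the property `CherryOrMany`
-/

set_option linter.unusedSectionVars false

namespace Q299.Thr

open MeasureTheory ProbabilityTheory Filter Topology Asymptotics Finset Q299.Dep

open Pool.Agent.W166.Gnp

/-! ### The property -/

theorem isMonotoneProperty : IsMonotoneProperty CherryOrMany := by
  constructor
  · rintro n G H ⟨φ⟩ hG
    rcases hG with ⟨a, b, c, hbc, h1, h2⟩ | h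
    · left
      refine ⟨φ a, φ b, φ c, fun h => hbc (φ.injective h), ?_, ?_⟩
      · exact φ.map_rel_iff.2 h1
      · exact φ.map_rel_iff.2 h2
    · right
      have : G.edgeSet.ncard = H.edgeSet.ncard := by
        rw [← Nat.card_coe_set_eq, ← Nat.card_coe_set_eq]
        exact Nat.card_congr φ.mapEdgeSet
      rwa [← this]
  · intro n G H hGH hG
    rcases hG with ⟨a, b, c, hbc, h1, h2⟩ | h
    · left
      exact ⟨a, b, c, hbc, hGH h1, hGH h2⟩
    · right
      refine h.trans ?_
      exact_mod_cast Set.ncard_le_ncard (SimpleGraph.edgeSet_mono hGH) (Set.toFinite _)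

/-- `n ^ (1/4)` -/
noncomputable def a (n : ℕ) : ℝ := (n : ℝ) ^ (1 / 4 : ℝ)

lemma a_ge_one {n : ℕ} (hn : 1 ≤ n) : 1 ≤ a n :=
  Real.one_le_rpow (by exact_mod_cast hn) (by norm_num)

lemma a_nonneg (n : ℕ) : 0 ≤ a n := Real.rpow_nonneg (Nat.cast_nonneg _) _

lemma a_sq_le {n : ℕ} (hn : 1 ≤ n) : a n ^ 2 ≤ n := by
  unfold a
  rw [← Real.rpow_natCast, ← Real.rpow_mul (Nat.cast_nonneg _)]
  calc (n : ℝ) ^ ((1 / 4 : ℝ) * (2 : ℕ)) ≤ (n : ℝ) ^ (1 : ℝ) :=
        Real.rpow_le_rpow_of_exponent_le (by exact_mod_cast hn) (by norm_num)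
    _ = n := Real.rpow_one _

lemma choose_le (n : ℕ) : (n.choose 2 : ℝ) ≤ (n : ℝ) ^ 2 := by
  have : n.choose 2 ≤ n ^ 2 := Nat.choose_le_pow n 2
  exact_mod_cast this

lemma le_choose {n : ℕ} (hn : 2 ≤ n) : (n : ℝ) ^ 2 / 4 ≤ (n.choose 2 : ℝ) := by
  rw [Nat.cast_choose_two]
  have : (2 : ℝ) ≤ n := by exact_mod_cast hn
  nlinarith

/-- the property needs an edge -/
lemma one_le_of_P {n : ℕ} (hn : 1 ≤ n) {G : SimpleGraph (Fin n)} (hG : CherryOrMany n G) :
    (1 : ℝ) ≤ (G.edgeSet.ncard : ℝ) := by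
  rcases hG with ⟨x, y, z, _, h1, _⟩ | h
  · have : 0 < G.edgeSet.ncard := by
      rw [Set.ncard_pos (Set.toFinite _)]
      exact ⟨s(x, y), h1⟩
    exact_mod_cast this
  · exact (a_ge_one hn).trans h

/-- few edges and dependence -/
lemma lacks_of_any {n d : ℕ} {p : ℝ} {μ : Measure (SimpleGraph (Fin n))} (hn : 1 ≤ n) (h0 : 0 ≤ p)
    (h : IsDDependent n d p μ) : μ {G | CherryOrMany n G} ≤ ENNReal.ofReal ((n : ℝ) ^ 2 * p) := by
  refine (measure_mono (t := {G | (1 : ℝ) ≤ (G.edgeSet.ncard : ℝ)}) ?_).trans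
    ((markov_edges h0 h one_pos).trans (ENNReal.ofReal_le_ofReal ?_))
  · intro G hG
    exact one_le_of_P hn hG
  · rw [div_one]
    exact mul_le_mul_of_nonneg_right (choose_le n) h0

/-- the pair `{x, y}` with `x ≠ y` -/
def mk' {n : ℕ} (x y : Fin n) (h : x ≠ y) : Pairs n := ⟨s(x, y), by simpa using h⟩

/-- the independent model -/
lemma lacks_of_zero {n : ℕ} {p : ℝ} {μ : Measure (SimpleGraph (Fin n))} (hn : 1 ≤ n) (h0 : 0 ≤ p)
    (h : IsDDependent n 0 p μ) :
    μ {G | CherryOrMany n G} ≤ ENNReal.ofReal (p / (a n / (n : ℝ) ^ 2) + (p / (a n / (n : ℝ) ^ 2)) ^ 2) := by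
  classical
  have hnr : (1 : ℝ) ≤ n := by exact_mod_cast hn
  have ha := a_ge_one hn
  have hsub : {G : SimpleGraph (Fin n) | CherryOrMany n G} ⊆
      {G | a n ≤ (G.edgeSet.ncard : ℝ)} ∪
      (⋃ t ∈ (univ.filter (fun t : Fin n × Fin n × Fin n =>
        t.1 ≠ t.2.1 ∧ t.1 ≠ t.2.2 ∧ t.2.1 ≠ t.2.2)), {G : SimpleGraph (Fin n) |
          s(t.1, t.2.1) ∈ G.edgeSet ∧ s(t.1, t.2.2) ∈ G.edgeSet}) := by
    intro G hG
    rcases hG with ⟨x, y, z, hyz, h1, h2⟩ | hh
    · right
      simp only [Set.mem_iUnion]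
      refine ⟨(x, y, z), ?_, h1, h2⟩
      simp only [mem_filter, mem_univ, true_and]
      exact ⟨h1.ne, h2.ne, hyz⟩
    · left
      exact hh
  refine (measure_mono hsub).trans ((measure_union_le _ _).trans ?_)
  rw [ENNReal.ofReal_add (by positivity) (by positivity)]
  apply add_le_add
  · refine (markov_edges h0 h (by linarith)).trans (ENNReal.ofReal_le_ofReal ?_)
    rw [div_div_eq_mul_div]
    apply div_le_div_of_nonneg_right _ (by linarith)
    rw [mul_comm]
    exact mul_le_mul_of_nonneg_left (choose_le n) h0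
  · refine (measure_biUnion_finset_le _ _).trans ?_
    calc _ ≤ ∑ t ∈ (univ.filter (fun t : Fin n × Fin n × Fin n =>
        t.1 ≠ t.2.1 ∧ t.1 ≠ t.2.2 ∧ t.2.1 ≠ t.2.2)), ENNReal.ofReal (p ^ 2) := by
          apply sum_le_sum
          intro t ht
          simp only [mem_filter, mem_univ, true_and] at ht
          refine (pair_prob h0 h (mk' t.1 t.2.1 ht.1) (mk' t.1 t.2.2 ht.2.1) ?_).le
          intro hcon
          have := congrArg Subtype.val hcon
          simp only [mk', Sym2.eq_iff, true_and] at this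
          rcases this with h' | h'
          · exact ht.2.2 h'.symm
          · exact ht.1 h'.1
      _ ≤ ∑ t : Fin n × Fin n × Fin n, ENNReal.ofReal (p ^ 2) :=
          sum_le_sum_of_subset (filter_subset _ _)
      _ = ENNReal.ofReal ((n : ℝ) ^ 3 * p ^ 2) := by
          rw [sum_const, card_univ, Fintype.card_prod, Fintype.card_prod, Fintype.card_fin,
            nsmul_eq_mul, ENNReal.ofReal_mul (by positivity)]
          congr 1
          rw [ENNReal.ofReal_pow (by positivity), ENNReal.ofReal_natCast]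
          push_cast
          ring
      _ ≤ _ := by
          apply ENNReal.ofReal_le_ofReal
          rw [div_div_eq_mul_div, div_pow, le_div_iff₀ (by positivity)]
          have := a_sq_le hn
          calc (n : ℝ) ^ 3 * p ^ 2 * a n ^ 2 ≤ (n : ℝ) ^ 3 * p ^ 2 * n :=
                mul_le_mul_of_nonneg_left this (by positivity)
            _ = (p * (n : ℝ) ^ 2) ^ 2 := by ring

/-- lower threshold -/
noncomputable def L (n d : ℕ) : ℝ := (if d = 0 then a n else 1) / (n : ℝ) ^ 2

/-- upper threshold -/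
noncomputable def U (n d : ℕ) : ℝ := max (a n) (d + 1) / (n : ℝ) ^ 2

lemma L_pos {n : ℕ} (hn : 1 ≤ n) (d : ℕ) : 0 < L n d := by
  have hnr : (1 : ℝ) ≤ n := by exact_mod_cast hn
  have ha := a_ge_one hn
  unfold L
  apply div_pos
  · split_ifs <;> linarith
  · positivity

lemma L_le_U (n d : ℕ) : L n d ≤ U n d := by
  unfold L U
  apply div_le_div_of_nonneg_right _ (by positivity)
  split_ifs
  · exact le_max_left _ _
  · refine le_trans ?_ (le_max_right _ _)
    have : (0 : ℝ) ≤ d := Nat.cast_nonneg _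
    linarith

lemma below_bound {n d : ℕ} {p : ℝ} {μ : Measure (SimpleGraph (Fin n))} (hn : 1 ≤ n) (h0 : 0 ≤ p)
    (h : IsDDependent n d p μ) :
    μ {G | CherryOrMany n G} ≤ ENNReal.ofReal (p / L n d + (p / L n d) ^ 2) := by
  unfold L
  split_ifs with hd
  · subst hd
    exact lacks_of_zero hn h0 h
  · refine (lacks_of_any hn h0 h).trans (ENNReal.ofReal_le_ofReal ?_)
    have : p / (1 / (n : ℝ) ^ 2) = (n : ℝ) ^ 2 * p := by
      rw [div_div_eq_mul_div, div_one, mul_comm]
    rw [this]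
    have := sq_nonneg ((n : ℝ) ^ 2 * p)
    linarith

lemma above_bound {n d : ℕ} {p : ℝ} {μ : Measure (SimpleGraph (Fin n))} (hn : 2 ≤ n) (h0 : 0 < p)
    (h : IsDDependent n d p μ) (hs : U n d / p ≤ 1 / 8) :
    1 - ENNReal.ofReal (16 * (U n d / p)) ≤ μ {G | CherryOrMany n G} := by
  have hprob := h.prob
  have hnr : (2 : ℝ) ≤ n := by exact_mod_cast hn
  have hU : U n d ≤ p / 8 := by
    rw [div_le_iff₀ h0] at hs
    linarith
  have hch := le_choose hn
  have hcompl : {G : SimpleGraph (Fin n) | CherryOrMany n G}ᶜ ⊆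
      {G | (G.edgeSet.ncard : ℝ) ≤ (n.choose 2 : ℝ) * p / 2} := by
    intro G hG
    simp only [Set.mem_compl_iff, Set.mem_ofPred_eq] at hG ⊢
    have h1 : (G.edgeSet.ncard : ℝ) < a n := by
      by_contra hcon
      exact hG (Or.inr (not_lt.1 hcon))
    have h2 : a n / (n : ℝ) ^ 2 ≤ U n d :=
      div_le_div_of_nonneg_right (le_max_left _ _) (by positivity)
    have h3 : a n ≤ (p / 8) * (n : ℝ) ^ 2 := by
      have := h2.trans hU
      rwa [div_le_iff₀ (by positivity)] at this
    have h4 : (n : ℝ) ^ 2 / 4 * p / 2 ≤ (n.choose 2 : ℝ) * p / 2 := by gcongr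
    linarith
  have h5 : μ {G : SimpleGraph (Fin n) | CherryOrMany n G}ᶜ ≤
      ENNReal.ofReal (16 * (U n d / p)) := by
    refine (measure_mono hcompl).trans ((chebyshev_edges h0 h hn).trans
      (ENNReal.ofReal_le_ofReal ?_))
    have h6 : ((d : ℝ) + 1) / (n : ℝ) ^ 2 ≤ U n d :=
      div_le_div_of_nonneg_right (le_max_right _ _) (by positivity)
    have hd0 : (0 : ℝ) ≤ d := Nat.cast_nonneg _
    calc 4 * ((d : ℝ) + 1) / ((n.choose 2 : ℝ) * p)
        ≤ 4 * ((d : ℝ) + 1) / ((n : ℝ) ^ 2 / 4 * p) := by gcongr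
      _ = 16 * ((((d : ℝ) + 1) / (n : ℝ) ^ 2) / p) := by field_simp; norm_num
      _ ≤ _ := by gcongr
  rw [prob_compl_eq_one_sub (meas_set _)] at h5
  rw [tsub_le_iff_right] at h5 ⊢
  rwa [add_comm] at h5

/-! ### Laws between the thresholds -/

/-- the independent model is `d`-dependent -/
lemma isDDependent_id (n d : ℕ) {p : ℝ} (h0 : 0 ≤ p) (h1 : p ≤ 1) :
    IsDDependent n d p (blockLaw (fun e : Pairs n => e) p) := by
  classical
  apply isDDependent_blockLaw _ h0 h1
  intro b
  have : (univ.filter (fun e : Pairs n => e = b)).card ≤ 1 := by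
    rw [card_le_one]
    intro e he f hf
    simp only [mem_filter, mem_univ, true_and] at he hf
    rw [he, hf]
  omega

/-- the block of an edge: half of the lower end, and the upper end -/
def half {n : ℕ} (e : Pairs n) : Fin n × Fin n :=
  (⟨e.1.inf.1 / 2, lt_of_le_of_lt (Nat.div_le_self _ _) e.1.inf.2⟩, e.1.sup)

lemma isDDependent_half (n d : ℕ) (hd : 1 ≤ d) {p : ℝ} (h0 : 0 ≤ p) (h1 : p ≤ 1) :
    IsDDependent n d p (blockLaw (half (n := n)) p) := by
  classical
  apply isDDependent_blockLaw _ h0 h1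
  rintro ⟨t, w⟩
  have : (univ.filter (fun e : Pairs n => half e = (t, w))).card ≤
      ({2 * t.1, 2 * t.1 + 1} : Finset ℕ).card := by
    apply card_le_card_of_injOn (fun e => e.1.inf.1)
    · intro e he
      simp only [coe_filter, mem_univ, true_and, Set.mem_ofPred_eq, half, Prod.mk.injEq] at he
      have h1 := congrArg Fin.val he.1
      simp only at h1
      simp only [coe_insert, coe_singleton, Set.mem_insert_iff, Set.mem_singleton_iff]
      omega
    · intro e he f hf hef
      simp only [coe_filter, mem_univ, true_and, Set.mem_ofPred_eq, half, Prod.mk.injEq] at he hf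
      apply Subtype.ext
      rw [← Sym2.inf_eq_inf_and_sup_eq_sup]
      exact ⟨Fin.ext hef, he.2.trans hf.2.symm⟩
  have h2 : ({2 * t.1, 2 * t.1 + 1} : Finset ℕ).card ≤ 2 := card_le_two
  omega

lemma half_mk {n : ℕ} {x y : Fin n} (h : x < y) :
    half (mk' x y h.ne) = (⟨x.1 / 2, lt_of_le_of_lt (Nat.div_le_self _ _) x.2⟩, y) := by
  unfold half mk'
  simp only [Sym2.inf_mk, Sym2.sup_mk, inf_of_le_left h.le, sup_of_le_right h.le]

/-- blocks that give a cherry -/
def good (n : ℕ) : Finset (Fin n × Fin n) :=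
  univ.filter (fun t => t.1.1 < n / 4 ∧ n - n / 2 ≤ t.2.1)

lemma card_good (n : ℕ) : (n / 4) * (n / 2) ≤ (good n).card := by
  have h1 : good n = (univ.filter (fun t : Fin n => t.1 < n / 4)) ×ˢ
      (univ.filter (fun t : Fin n => n - n / 2 ≤ t.1)) := by
    ext ⟨x, y⟩
    simp [good]
  rw [h1, card_product]
  apply Nat.mul_le_mul
  · have : (range (n / 4)).card ≤ (univ.filter (fun t : Fin n => t.1 < n / 4)).card := by
      rw [← card_image_of_injective _ Fin.val_injective]
      apply card_le_card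
      intro k hk
      rw [mem_range] at hk
      rw [mem_image]
      exact ⟨⟨k, by omega⟩, by simpa using hk, rfl⟩
    simpa using this
  · have : (Finset.Ico (n - n / 2) n).card ≤ (univ.filter (fun t : Fin n => n - n / 2 ≤ t.1)).card := by
      rw [← card_image_of_injective _ Fin.val_injective]
      apply card_le_card
      intro k hk
      rw [mem_Ico] at hk
      rw [mem_image]
      exact ⟨⟨k, hk.2⟩, by simpa using hk.1, rfl⟩
    rw [Nat.card_Ico] at this
    omega

lemma has_bound {n : ℕ} {p : ℝ} (hn : 4 ≤ n) (h0 : 0 ≤ p) (h1 : p ≤ 1) :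
    ENNReal.ofReal (1 - Real.exp (-(p / (1 / (n : ℝ) ^ 2) / 32))) ≤
      blockLaw (half (n := n)) p {G | CherryOrMany n G} := by
  classical
  rw [blockLaw_eq_Pr _ h0 h1]
  apply ENNReal.ofReal_le_ofReal
  have h2 : Pr (univ : Finset (Fin n × Fin n)) p (fun R => ∃ y ∈ good n, y ∈ R) ≤
      Pr (univ : Finset (Fin n × Fin n)) p (fun R => CherryOrMany n (blockGraph half R)) := by
    apply Pr_mono h0 h1
    rintro R _ ⟨⟨t, w⟩, hy, hR⟩
    simp only [good, mem_filter, mem_univ, true_and] at hy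
    left
    have b1 : 2 * t.1 < w.1 := by omega
    have b2 : 2 * t.1 + 1 < w.1 := by omega
    set x : Fin n := ⟨2 * t.1, by have := w.2; omega⟩ with hx
    set y : Fin n := ⟨2 * t.1 + 1, by have := w.2; omega⟩ with hyy
    have hxw : x < w := b1
    have hyw : y < w := b2
    refine ⟨w, x, y, ?_, ?_, ?_⟩
    · intro h
      have := congrArg Fin.val h
      simp only [hx, hyy] at this
      omega
    · apply SimpleGraph.Adj.symm
      have := (mem_blockGraph half R (mk' x w hxw.ne)).2 (by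
        rw [half_mk hxw]
        convert hR using 3
        show (2 * t.1) / 2 = t.1
        omega)
      exact this
    · apply SimpleGraph.Adj.symm
      have := (mem_blockGraph half R (mk' y w hyw.ne)).2 (by
        rw [half_mk hyw]
        convert hR using 3
        show (2 * t.1 + 1) / 2 = t.1
        omega)
      exact this
  refine le_trans ?_ h2
  rw [Pr_hit (subset_univ _)]
  have h3 : (n : ℝ) ^ 2 / 32 ≤ ((good n).card : ℝ) := by
    have h4 : (n : ℝ) / 8 ≤ ((n / 4 : ℕ) : ℝ) := by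
      have : n ≤ 8 * (n / 4) := by omega
      have h5 : (n : ℝ) ≤ 8 * ((n / 4 : ℕ) : ℝ) := by exact_mod_cast this
      linarith
    have h5 : (n : ℝ) / 4 ≤ ((n / 2 : ℕ) : ℝ) := by
      have : n ≤ 4 * (n / 2) := by omega
      have h5 : (n : ℝ) ≤ 4 * ((n / 2 : ℕ) : ℝ) := by exact_mod_cast this
      linarith
    calc (n : ℝ) ^ 2 / 32 = (n : ℝ) / 8 * ((n : ℝ) / 4) := by ring
      _ ≤ ((n / 4 : ℕ) : ℝ) * ((n / 2 : ℕ) : ℝ) := by gcongr
      _ ≤ _ := by exact_mod_cast card_good n
  have h4 : (1 - p) ^ (good n).card ≤ Real.exp (-(p / (1 / (n : ℝ) ^ 2) / 32)) := by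
    calc (1 - p) ^ (good n).card ≤ Real.exp (-p) ^ (good n).card := by
          apply pow_le_pow_left₀ (by linarith)
          have := Real.add_one_le_exp (-p)
          linarith
      _ = Real.exp (-(p * (good n).card)) := by
          rw [← Real.exp_nat_mul]
          congr 1
          ring
      _ ≤ _ := by
          apply Real.exp_le_exp.2
          rw [div_div_eq_mul_div, div_one]
          have := mul_le_mul_of_nonneg_left h3 h0
          linarith
  linarith

/-- blocks of `d + 1` edges -/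
noncomputable def chunk {n : ℕ} (d : ℕ) (e : Pairs n) : Fin (Fintype.card (Pairs n) / (d + 1) + 1) :=
  ⟨(Fintype.equivFin (Pairs n) e).1 / (d + 1), by
    have := (Fintype.equivFin (Pairs n) e).2
    have := Nat.div_le_div_right (c := d + 1) this.le
    omega⟩

lemma isDDependent_chunk (n d : ℕ) {p : ℝ} (h0 : 0 ≤ p) (h1 : p ≤ 1) :
    IsDDependent n d p (blockLaw (chunk (n := n) d) p) := by
  classical
  apply isDDependent_blockLaw _ h0 h1
  intro b
  have : (univ.filter (fun e : Pairs n => chunk d e = b)).card ≤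
      (Finset.Ico (b.1 * (d + 1)) (b.1 * (d + 1) + (d + 1))).card := by
    apply card_le_card_of_injOn (fun e => (Fintype.equivFin (Pairs n) e).1)
    · intro e he
      simp only [coe_filter, mem_univ, true_and, Set.mem_ofPred_eq] at he
      have h1 := congrArg Fin.val he
      simp only [chunk] at h1
      simp only [coe_Ico, Set.mem_Ico]
      have h2 := Nat.div_mul_le_self (Fintype.equivFin (Pairs n) e).1 (d + 1)
      have h3 : (Fintype.equivFin (Pairs n) e).1 <
        (Fintype.equivFin (Pairs n) e).1 / (d + 1) * (d + 1) + (d + 1) :=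
        Nat.lt_div_mul_add (Nat.succ_pos d)
      rw [h1] at h2 h3
      exact ⟨h2, h3⟩
    · intro e _ f _ hef
      exact (Fintype.equivFin (Pairs n)).injective (Fin.ext hef)
  rw [Nat.card_Ico] at this
  omega

lemma chunk_bound {n d : ℕ} {p : ℝ} (hn : 1 ≤ n) (hd : d + 1 ≤ n ^ 2) (h0 : 0 ≤ p) (h1 : p ≤ 1) :
    blockLaw (chunk (n := n) d) p {G | CherryOrMany n G} ≤
      ENNReal.ofReal (2 * (p / ((d + 1) / (n : ℝ) ^ 2))) := by
  classical
  rw [blockLaw_eq_Pr _ h0 h1]
  apply ENNReal.ofReal_le_ofReal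
  have h2 : Pr (univ : Finset (Fin (Fintype.card (Pairs n) / (d + 1) + 1))) p
      (fun R => CherryOrMany n (blockGraph (chunk d) R)) ≤
      Pr (univ : Finset (Fin (Fintype.card (Pairs n) / (d + 1) + 1))) p
      (fun R => ∃ b ∈ (univ : Finset (Fin (Fintype.card (Pairs n) / (d + 1) + 1))), {b} ⊆ R) := by
    apply Pr_mono h0 h1
    intro R _ hR
    have h3 := one_le_of_P hn hR
    have h4 : 0 < (blockGraph (chunk d) R).edgeSet.ncard := by
      have : (0 : ℝ) < ((blockGraph (chunk d) R).edgeSet.ncard : ℝ) := by linarith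
      exact_mod_cast this
    rw [Set.ncard_pos (Set.toFinite _)] at h4
    obtain ⟨e, he⟩ := h4
    have hnd : ¬ e.IsDiag := SimpleGraph.not_isDiag_of_mem_edgeSet _ he
    have h5 := (mem_blockGraph (chunk d) R ⟨e, hnd⟩).1 he
    exact ⟨_, mem_univ _, singleton_subset_iff.2 h5⟩
  refine h2.trans ((Pr_exists_le h0 h1 _ _).trans ?_)
  have h3 : ∀ b : Fin (Fintype.card (Pairs n) / (d + 1) + 1),
      Pr (univ : Finset (Fin (Fintype.card (Pairs n) / (d + 1) + 1))) p (fun R => {b} ⊆ R) = p := by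
    intro b
    rw [Pr_superset (subset_univ _)]
    simp
  simp_rw [h3]
  rw [sum_const, card_univ, Fintype.card_fin, nsmul_eq_mul, card_pairs]
  have hnr : (1 : ℝ) ≤ n := by exact_mod_cast hn
  have hdr : ((d : ℝ) + 1) ≤ (n : ℝ) ^ 2 := by exact_mod_cast hd
  have hd0 : (0 : ℝ) ≤ d := Nat.cast_nonneg _
  have h5 : ((n.choose 2 / (d + 1) + 1 : ℕ) : ℝ) ≤ 2 * ((n : ℝ) ^ 2 / (d + 1)) := by
    push_cast
    have h6 : ((n.choose 2 / (d + 1) : ℕ) : ℝ) ≤ (n : ℝ) ^ 2 / (d + 1) := by
      refine Nat.cast_div_le.trans ?_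
      push_cast
      exact div_le_div_of_nonneg_right (choose_le n) (by positivity)
    have h7 : 1 ≤ (n : ℝ) ^ 2 / (d + 1) := by
      rw [le_div_iff₀ (by positivity)]
      linarith
    linarith
  calc _ ≤ 2 * ((n : ℝ) ^ 2 / (d + 1)) * p := mul_le_mul_of_nonneg_right h5 h0
    _ = _ := by
      rw [div_div_eq_mul_div]
      ring

end Q299.Thr
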